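import Pool.Agent.helper88.GR.Spec

/-! gr: NAT: `fp`, its derivative, and the points `Z`. -/

set_option autoImplicit false

open Complex Metric Set Filter Topology MeasureTheory
open MPS (om)
open PPS (pre TT fd)
open XPS (Df er dens tau)

noncomputable section

namespace GR

theorem NAT_Z (n : ℕ) (c : ℂ) (j : ℕ) : Z n c (j + 1) = Z n c j ^ n + c := by
  unfold Z
  rw [Function.iterate_succ_apply']

theorem NAT_A (n : ℕ) (c : ℂ) (j : ℕ) (hj : 1 ≤ j) :
    A n c (j + 1) = (n : ℂ) * Z n c j ^ (n - 1) * A n c j := by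
  unfold A
  rw [Finset.prod_Ico_succ_top hj, mul_comm]

theorem NAT_fd (n : ℕ) (c z : ℂ) : fd (fp n c) z = (n : ℂ) * z ^ (n - 1) := by
  unfold fd fp
  simp [Polynomial.derivative_X_pow]

theorem NAT : NAT_stmt := by
  intro n c hn
  have hZ0 : Z n c 0 = 0 := rfl
  have hZ1 : Z n c 1 = c := by
    rw [NAT_Z, hZ0, zero_pow (by omega), zero_add]
  have hA1 : A n c 1 = 1 := by
    unfold A
    simp
  refine ⟨fun z => by unfold fp; simp, fun z => NAT_fd n c z, ?_, NAT_Z n c, hZ0, hZ1, hA1, ?_,
    NAT_A n c, ?_, ?_⟩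
  · unfold fp
    exact Polynomial.natDegree_X_pow_add_C
  · unfold S
    rw [Finset.Icc_self, Finset.sum_singleton, hA1]
    norm_num
  · intro j
    unfold S
    rw [Finset.sum_Icc_succ_top (by omega)]
  · intro p q h
    have hp : Z n c p ≠ 0 := h.ne0 p (le_trans h.q1 h.qp.le) le_rfl
    have hq : Z n c q ≠ 0 := h.ne0 q h.q1 h.qp.le
    have hp' : 0 < ‖Z n c p‖ := norm_pos_iff.2 hp
    refine ⟨norm_pos_iff.2 hq, h.le2 q h.q1 h.qp.le, ?_, ?_, ?_, ?_, ?_⟩
    · unfold X
      rw [one_lt_div hp']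
      exact h.lt
    · unfold R X
      rw [div_mul_cancel₀ _ hp'.ne']
    · intro j hj hjp
      unfold A
      rw [Finset.prod_ne_zero_iff]
      intro i hi
      rw [Finset.mem_Ico] at hi
      refine mul_ne_zero ?_ (pow_ne_zero _ (h.ne0 i hi.1 (by omega)))
      have : n ≠ 0 := by omega
      exact_mod_cast this
    · unfold xc
      rw [if_neg (by have := h.qp; omega)]
    · intro j
      unfold xc
      split_ifs
      · have : 1 - lam n c p q - 1 = -lam n c p q := by ring
        rw [this, norm_neg]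
      · simp

end GR
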