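import Pool.Agent.helper98.GR.Sig

/-! Uniform bound for odd numbers of colours (for MP_89787e_co): the three two-colour inequalities. -/

set_option autoImplicit false
set_option linter.unusedSectionVars false

namespace Pool.Agent.helper98.GR

open Pool.Agent.helper21.GR

/-- the parameters: `L` is the constant of a pair of unpaired colours -/
structure Par (m : ℕ) (ρ L : ℝ) : Prop where
  L0 : 0 ≤ L
  heavy : 320 * 64 ^ (m / 300) * (41 / 40) ^ m * (TT m) ^ 2 ≤ L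
  light : 160 * 64 ^ (m / 300) * (41 / 40) ^ m * 64 ^ 600 ≤ L
  main : 4 * ρ * (300 ^ (2 * kp) * 64 ^ 600) * 300 ^ (2 * kp) ≤ (m : ℝ) ^ (2 * kp) * L

theorem const_five {N : ℕ} (hN : N = 300) :
    (2 : ℝ) ^ (N + 1) * (kp : ℝ) * (1 / 256) ^ (kp - N) ≤ 1 := by
  rw [hN]
  rw [kp_eq]
  have h1 : ((1300 : ℕ) : ℝ) ≤ 2 ^ 11 := by norm_num
  have h2 : (1 / 256 : ℝ) ^ (1300 - 300) = 1 / 2 ^ (8 * 1000) := by
    rw [show (1 / 256 : ℝ) = (1 / 2) ^ 8 by norm_num, ← pow_mul, one_div_pow]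
  rw [h2, mul_one_div, div_le_one (by positivity)]
  calc (2 : ℝ) ^ 301 * ((1300 : ℕ) : ℝ) ≤ 2 ^ 301 * 2 ^ 11 :=
        mul_le_mul_of_nonneg_left h1 (by positivity)
    _ = 2 ^ (301 + 11) := by rw [pow_add]
    _ ≤ 2 ^ (8 * 1000) := pow_le_pow_right₀ (by norm_num) (by norm_num)

theorem const_six' (a N : ℕ) (hNk : N ≤ kp)
    (h : (2 : ℝ) ^ (N + 1) * (kp : ℝ) * (1 / 256) ^ (kp - N) ≤ 1) :
    (2 : ℝ) ^ (N + 1) * (kp : ℝ) * (a : ℝ) ^ N * ((a / 256 : ℕ) : ℝ) ^ (kp - N) ≤ (a : ℝ) ^ kp := by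
  have hN : ((a / 256 : ℕ) : ℝ) ≤ (a : ℝ) * (1 / 256) := by
    have := Nat.cast_div_le (α := ℝ) (m := a) (n := 256)
    push_cast at this
    linarith
  have e3 : ((a / 256 : ℕ) : ℝ) ^ (kp - N) ≤ (a : ℝ) ^ (kp - N) * (1 / 256) ^ (kp - N) := by
    rw [← mul_pow]
    exact pow_le_pow_left₀ (by positivity) hN _
  have e4 : (a : ℝ) ^ N * (a : ℝ) ^ (kp - N) = (a : ℝ) ^ kp := by
    rw [← pow_add, Nat.add_sub_cancel' hNk]
  calc (2 : ℝ) ^ (N + 1) * (kp : ℝ) * (a : ℝ) ^ N * ((a / 256 : ℕ) : ℝ) ^ (kp - N)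
      ≤ 2 ^ (N + 1) * (kp : ℝ) * (a : ℝ) ^ N * ((a : ℝ) ^ (kp - N) * (1 / 256) ^ (kp - N)) :=
        mul_le_mul_of_nonneg_left e3 (by positivity)
    _ = ((a : ℝ) ^ N * (a : ℝ) ^ (kp - N)) *
        (2 ^ (N + 1) * (kp : ℝ) * (1 / 256) ^ (kp - N)) := by ring
    _ ≤ (a : ℝ) ^ kp * 1 := by
        rw [e4]
        exact mul_le_mul_of_nonneg_left h (by positivity)
    _ = (a : ℝ) ^ kp := mul_one _

variable {V : Type*} [DecidableEq V]

theorem ineq_PP {m : ℕ} {r : V → V → Prop} (hs : ∀ u v, r u v → r v u)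
    {x y : V → ℕ} (hx : ∀ v, 1 ≤ x v) (hy : ∀ v, 1 ≤ y v) :
    ∀ (S : Finset V) (a b : ℕ), a ≤ m → b ≤ m → Bd r S x a → Bd (fun u v => ¬ r u v) S y b →
      ∑ v ∈ S, Wg m (x v) * Wg m (y v) ≤ Wg m a * Wg m b := by
  have P := Wg_PL m
  apply es_ind hs (φ := fun i j => Wg m i * Wg m j) (Φ := fun a b => Wg m a * Wg m b)
  · intro a b; exact mul_nonneg (P.nonneg a) (P.nonneg b)
  intro S a b hne ham hbm Ha Hb
  obtain ⟨v0, hv0⟩ := hne
  exact Or.inl ⟨v0, hv0, es_small P P (hx v0) (Ha.single hv0) (hy v0) (Hb.single hv0)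
      (Wg_Sm m a) (Wg_Sm m b)⟩

theorem ineq_L {m : ℕ} {r : V → V → Prop} (hs : ∀ u v, r u v → r v u)
    {x y : V → ℕ} (hx : ∀ v, 1 ≤ x v) (hy : ∀ v, 1 ≤ y v) :
    ∀ (S : Finset V) (a b : ℕ), a ≤ m → b ≤ m → Bd r S x a → Bd (fun u v => ¬ r u v) S y b →
      ∑ v ∈ S, U (x v) * Wg m (y v) ≤ U a * Wg m b := by
  classical
  have P := Wg_PL m
  apply es_ind hs (φ := fun i j => U i * Wg m j) (Φ := fun a b => U a * Wg m b)
  · intro a b; exact mul_nonneg (U_nonneg a) (P.nonneg b)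
  intro S a b hne ham hbm Ha Hb
  obtain ⟨v0, hv0⟩ := hne
  show (∃ v ∈ S, U (x v) * Wg m (y v) + U (a - x v) * Wg m b +
    U a * Wg m (b - y v) ≤ U a * Wg m b) ∨
    ∑ v ∈ S, U (x v) * Wg m (y v) ≤ U a * Wg m b
  by_cases hc : ∃ v ∈ S, a ≤ 256 * x v
  · obtain ⟨v, hv, h⟩ := hc
    exact Or.inl ⟨v, hv, es_right U_PL P (hx v) (Ha.single hv) (hy v) (Hb.single hv)
      (Or.inr ⟨Wg_Sm m b, h⟩)⟩
  · push Not at hc
    right
    have Wb0 := (sg_pos m b).le
    have step : ∑ v ∈ S, U (x v) * Wg m (y v) ≤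
        (∑ v ∈ S, (x v : ℝ) ^ kp * sg m (y v)) * (b : ℝ) ^ kp := by
      rw [Finset.sum_mul]
      apply Finset.sum_le_sum
      intro v hv
      have f2 : (y v : ℝ) ^ kp ≤ (b : ℝ) ^ kp :=
        pow_le_pow_left₀ (by positivity) (by exact_mod_cast Hb.single hv) _
      have f4 := (sg_pos m (y v)).le
      calc U (x v) * Wg m (y v) = ((x v : ℝ) ^ kp * sg m (y v)) * (y v : ℝ) ^ kp := by
            unfold U Wg; ring
        _ ≤ ((x v : ℝ) ^ kp * sg m (y v)) * (b : ℝ) ^ kp :=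
            mul_le_mul_of_nonneg_left f2 (by positivity)
    have hk1 : (kp - 1) + 1 = kp := by have := kp_pos; omega
    obtain ⟨N, hN⟩ : ∃ N : ℕ, N = 300 := ⟨_, rfl⟩
    have hpk : N ≤ kp - 1 := by rw [kp_eq, hN]; norm_num
    have cnt : ∀ i : ℕ, 1 ≤ i → i ≤ a / 256 →
        ∑ v ∈ S.filter (fun v => i ≤ x v), sg m (y v) ≤
          2 ^ (N + 1) * sg m b * ((a : ℝ) / i) ^ N := by
      intro i hi1 hiN
      have hia : 1 ≤ a / i := by
        rw [Nat.le_div_iff_mul_le (by omega)]; omega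
      have c1 := sum_sg_le hs hy (S.filter (fun v => i ≤ x v))
        (A := a / i) ((Nat.div_le_self _ _).trans ham) hbm
        (Ha.large hi1 (Finset.filter_subset _ _) (fun v hv => (Finset.mem_filter.1 hv).2))
        (Hb.mono (Finset.filter_subset _ _))
      rw [← hN] at c1
      refine c1.trans ?_
      have c2 : ((a / i : ℕ) : ℝ) ≤ (a : ℝ) / i := Nat.cast_div_le
      have c3 : (1 : ℝ) ≤ ((a / i : ℕ) : ℝ) := by exact_mod_cast hia
      have c4 : (((a / i : ℕ) : ℝ) + 1) ^ N ≤ (2 * ((a : ℝ) / i)) ^ N :=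
        pow_le_pow_left₀ (by linarith) (by linarith) _
      calc 2 * (((a / i : ℕ) : ℝ) + 1) ^ N * sg m b
          ≤ 2 * (2 * ((a : ℝ) / i)) ^ N * sg m b := by
            apply mul_le_mul_of_nonneg_right _ Wb0
            exact mul_le_mul_of_nonneg_left c4 (by norm_num)
        _ = 2 ^ (N + 1) * sg m b * ((a : ℝ) / i) ^ N := by
            rw [mul_pow, pow_succ]; ring
    have lay := layer (κ := kp - 1) (p := N) (N := a / 256) (S := S) (x := x)
      (g := fun v => sg m (y v)) (G := 2 ^ (N + 1) * sg m b) (a := (a : ℝ)) hpk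
      (fun v _ => (sg_pos m _).le) (fun v hv => by have := hc v hv; omega) (by positivity)
      (by positivity) cnt
    rw [hk1] at lay
    have fin : (∑ v ∈ S, (x v : ℝ) ^ kp * sg m (y v)) ≤ (a : ℝ) ^ kp * sg m b := by
      calc ∑ v ∈ S, (x v : ℝ) ^ kp * sg m (y v)
          ≤ 2 ^ (N + 1) * sg m b * (kp : ℝ) * (a : ℝ) ^ N * ((a / 256 : ℕ) : ℝ) ^ (kp - N) := lay
        _ = (2 ^ (N + 1) * (kp : ℝ) * (a : ℝ) ^ N * ((a / 256 : ℕ) : ℝ) ^ (kp - N)) * sg m b := by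
            ring
        _ ≤ (a : ℝ) ^ kp * sg m b := mul_le_mul_of_nonneg_right
            (const_six' a N (by omega) (const_five hN)) Wb0
    calc ∑ v ∈ S, U (x v) * Wg m (y v)
        ≤ (∑ v ∈ S, (x v : ℝ) ^ kp * sg m (y v)) * (b : ℝ) ^ kp := step
      _ ≤ ((a : ℝ) ^ kp * sg m b) * (b : ℝ) ^ kp :=
          mul_le_mul_of_nonneg_right fin (by positivity)
      _ = U a * Wg m b := by unfold U Wg; ring

/-- both coordinates thin, heavy -/
theorem class_heavy {m : ℕ} {ρ L : ℝ} (hP : Par m ρ L) {r : V → V → Prop}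
    (hs : ∀ u v, r u v → r v u)
    {x y : V → ℕ} (hx : ∀ v, 1 ≤ x v) (hy : ∀ v, 1 ≤ y v) (S : Finset V) {a b : ℕ}
    (ham : a ≤ m) (hbm : b ≤ m)
    (Ha : Bd r S x a) (Hb : Bd (fun u v => ¬ r u v) S y b)
    (h1 : ∀ v ∈ S, ¬ (x v < 300 ∧ y v < 300)) {g : V → ℝ} (hg0 : ∀ v ∈ S, 0 ≤ g v)
    (hgT : ∀ v ∈ S, g v ≤ (TT m) ^ 2) :
    ∑ v ∈ S, (x v : ℝ) ^ kp * (y v : ℝ) ^ kp * g v ≤ (a : ℝ) ^ kp * (b : ℝ) ^ kp * (L / 4) := by
  classical
  have hs' : ∀ u v, ¬ r u v → ¬ r v u := fun u v h h' => h (hs _ _ h')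
  have e1 : ((S.filter (fun v => 300 ≤ x v)).card : ℝ) ≤ 64 ^ (m / 300) * (41 / 40) ^ m * 40 := by
    apply card_le_exp hs
    · exact (Ha.le ham).large (by norm_num) (Finset.filter_subset _ _)
        (fun v hv => (Finset.mem_filter.1 hv).2)
    · exact ((Hb.one hy).mono (Finset.filter_subset _ _)).le hbm
  have e2 : ((S.filter (fun v => 300 ≤ y v)).card : ℝ) ≤ 64 ^ (m / 300) * (41 / 40) ^ m * 40 := by
    apply card_le_exp hs'
    · exact (Hb.le hbm).large (by norm_num) (Finset.filter_subset _ _)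
        (fun v hv => (Finset.mem_filter.1 hv).2)
    · apply Bd.congr (r := r) (fun u v h => not_not.1 h)
      exact ((Ha.one hx).mono (Finset.filter_subset _ _)).le ham
  have e3 : S.card ≤ (S.filter (fun v => 300 ≤ x v)).card + (S.filter (fun v => 300 ≤ y v)).card := by
    refine (Finset.card_le_card ?_).trans (Finset.card_union_le _ _)
    intro v hv
    rw [Finset.mem_union, Finset.mem_filter, Finset.mem_filter]
    by_cases h2 : x v < 300
    · right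
      exact ⟨hv, by
        by_contra h3
        exact h1 v hv ⟨h2, by omega⟩⟩
    · left
      exact ⟨hv, by omega⟩
  have e4 : (S.card : ℝ) ≤ 80 * (64 ^ (m / 300) * (41 / 40) ^ m) := by
    have : (S.card : ℝ) ≤ (S.filter (fun v => 300 ≤ x v)).card +
      (S.filter (fun v => 300 ≤ y v)).card := by exact_mod_cast e3
    linarith
  have e5 : ∑ v ∈ S, (x v : ℝ) ^ kp * (y v : ℝ) ^ kp * g v ≤
      S.card • ((a : ℝ) ^ kp * (b : ℝ) ^ kp * (TT m) ^ 2) := by
    apply Finset.sum_le_card_nsmul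
    intro v hv
    have f1 : (x v : ℝ) ^ kp ≤ (a : ℝ) ^ kp :=
      pow_le_pow_left₀ (by positivity) (by exact_mod_cast Ha.single hv) _
    have f2 : (y v : ℝ) ^ kp ≤ (b : ℝ) ^ kp :=
      pow_le_pow_left₀ (by positivity) (by exact_mod_cast Hb.single hv) _
    exact mul_le_mul (mul_le_mul f1 f2 (by positivity) (by positivity)) (hgT v hv) (hg0 v hv)
      (by positivity)
  rw [nsmul_eq_mul] at e5
  have hT0 : 0 < TT m := lt_of_lt_of_le one_pos (one_le_TT m)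
  calc ∑ v ∈ S, (x v : ℝ) ^ kp * (y v : ℝ) ^ kp * g v
      ≤ (S.card : ℝ) * ((a : ℝ) ^ kp * (b : ℝ) ^ kp * (TT m) ^ 2) := e5
    _ ≤ (80 * (64 ^ (m / 300) * (41 / 40) ^ m)) * ((a : ℝ) ^ kp * (b : ℝ) ^ kp * (TT m) ^ 2) :=
        mul_le_mul_of_nonneg_right e4 (by positivity)
    _ = (a : ℝ) ^ kp * (b : ℝ) ^ kp *
        ((320 * 64 ^ (m / 300) * (41 / 40) ^ m * (TT m) ^ 2) / 4) := by ring
    _ ≤ (a : ℝ) ^ kp * (b : ℝ) ^ kp * (L / 4) := by
        apply mul_le_mul_of_nonneg_left _ (by positivity)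
        have := hP.heavy
        linarith

/-- light vertices -/
theorem class_light {m : ℕ} {ρ L : ℝ} (hP : Par m ρ L) {r : V → V → Prop}
    (hs : ∀ u v, r u v → r v u)
    (hcard : ∀ T : Finset V, Bd r T (fun _ => 1) m → Bd (fun u v => ¬ r u v) T (fun _ => 1) m →
      (T.card : ℝ) ≤ ρ)
    {x y : V → ℕ} (hx : ∀ v, 1 ≤ x v) (hy : ∀ v, 1 ≤ y v) (S : Finset V) {a b : ℕ}
    (ham : a ≤ m) (hbm : b ≤ m)
    (Ha : Bd r S x a) (Hb : Bd (fun u v => ¬ r u v) S y b)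
    (h1 : ∀ v ∈ S, x v < 300 ∧ y v < 300) {g : V → ℝ} (hg0 : ∀ v ∈ S, 0 ≤ g v)
    (hg3 : ∀ v ∈ S, g v ≤ 64 ^ 600) :
    ∑ v ∈ S, (x v : ℝ) ^ kp * (y v : ℝ) ^ kp * g v ≤ (a : ℝ) ^ kp * (b : ℝ) ^ kp * (L / 4) := by
  classical
  have hs' : ∀ u v, ¬ r u v → ¬ r v u := fun u v h h' => h (hs _ _ h')
  obtain ⟨G, hG⟩ : ∃ G : ℝ, G = 64 ^ 600 := ⟨_, rfl⟩
  have hG0 : 0 ≤ G := by rw [hG]; positivity
  have hmain := hP.main
  have hlight := hP.light
  rw [← hG] at hg3 hmain hlight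
  by_cases hab : m ≤ 300 * a ∧ m ≤ 300 * b
  · -- many vertices are allowed
    have e1 : (S.card : ℝ) ≤ ρ := hcard S ((Ha.one hx).le ham) ((Hb.one hy).le hbm)
    have e2 : ∑ v ∈ S, (x v : ℝ) ^ kp * (y v : ℝ) ^ kp * g v ≤
        S.card • (300 ^ (2 * kp) * G) := by
      apply Finset.sum_le_card_nsmul
      intro v hv
      have f1 : (x v : ℝ) ^ kp ≤ 300 ^ kp :=
        pow_le_pow_left₀ (by positivity) (by exact_mod_cast (h1 v hv).1.le) _
      have f2 : (y v : ℝ) ^ kp ≤ 300 ^ kp :=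
        pow_le_pow_left₀ (by positivity) (by exact_mod_cast (h1 v hv).2.le) _
      rw [two_mul, pow_add]
      exact mul_le_mul (mul_le_mul f1 f2 (by positivity) (by positivity)) (hg3 v hv) (hg0 v hv)
        (by positivity)
    rw [nsmul_eq_mul] at e2
    have e3 : (m : ℝ) ^ (2 * kp) ≤ 300 ^ (2 * kp) * ((a : ℝ) ^ kp * (b : ℝ) ^ kp) := by
      have ha' : (m : ℝ) ≤ 300 * a := by exact_mod_cast hab.1
      have hb' : (m : ℝ) ≤ 300 * b := by exact_mod_cast hab.2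
      have hm0 : (0 : ℝ) ≤ m := Nat.cast_nonneg m
      calc (m : ℝ) ^ (2 * kp) = (m : ℝ) ^ kp * (m : ℝ) ^ kp := by rw [two_mul, pow_add]
        _ ≤ (300 * (a : ℝ)) ^ kp * (300 * (b : ℝ)) ^ kp :=
            mul_le_mul (pow_le_pow_left₀ hm0 ha' _) (pow_le_pow_left₀ hm0 hb' _) (by positivity)
              (by positivity)
        _ = 300 ^ (2 * kp) * ((a : ℝ) ^ kp * (b : ℝ) ^ kp) := by
            rw [mul_pow, mul_pow, two_mul, pow_add]; ring
    have e4 : ρ * (300 ^ (2 * kp) * G) ≤ (a : ℝ) ^ kp * (b : ℝ) ^ kp * (L / 4) := by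
      have h300 : (0 : ℝ) < 300 ^ (2 * kp) := by positivity
      have e5 := hmain.trans (mul_le_mul_of_nonneg_right e3 hP.L0)
      have e6 : (ρ * (300 ^ (2 * kp) * G)) * (4 * 300 ^ (2 * kp)) ≤
          ((a : ℝ) ^ kp * (b : ℝ) ^ kp * (L / 4)) * (4 * 300 ^ (2 * kp)) := by
        calc (ρ * (300 ^ (2 * kp) * G)) * (4 * 300 ^ (2 * kp))
            = 4 * ρ * (300 ^ (2 * kp) * G) * 300 ^ (2 * kp) := by ring
          _ ≤ 300 ^ (2 * kp) * ((a : ℝ) ^ kp * (b : ℝ) ^ kp) * L := e5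
          _ = _ := by ring
      exact le_of_mul_le_mul_right e6 (by positivity)
    calc ∑ v ∈ S, (x v : ℝ) ^ kp * (y v : ℝ) ^ kp * g v
        ≤ (S.card : ℝ) * (300 ^ (2 * kp) * G) := e2
      _ ≤ ρ * (300 ^ (2 * kp) * G) := mul_le_mul_of_nonneg_right e1 (by positivity)
      _ ≤ _ := e4
  · -- a small budget
    have e1 : (S.card : ℝ) ≤ 64 ^ (m / 300) * (41 / 40) ^ m * 40 := by
      have hab' : a ≤ m / 300 ∨ b ≤ m / 300 := by
        rcases not_and_or.1 hab with h | h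
        · left; omega
        · right; omega
      rcases hab' with h | h
      · exact card_le_exp hs S _ _ ((Ha.one hx).le h) ((Hb.one hy).le hbm)
      · apply card_le_exp hs' S _ _ ((Hb.one hy).le h)
        apply Bd.congr (r := r) (fun u v h => not_not.1 h)
        exact (Ha.one hx).le ham
    have e6 : ∑ v ∈ S, (x v : ℝ) ^ kp * (y v : ℝ) ^ kp * g v ≤
        S.card • ((a : ℝ) ^ kp * (b : ℝ) ^ kp * G) := by
      apply Finset.sum_le_card_nsmul
      intro v hv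
      have f1 : (x v : ℝ) ^ kp ≤ (a : ℝ) ^ kp :=
        pow_le_pow_left₀ (by positivity) (by exact_mod_cast Ha.single hv) _
      have f2 : (y v : ℝ) ^ kp ≤ (b : ℝ) ^ kp :=
        pow_le_pow_left₀ (by positivity) (by exact_mod_cast Hb.single hv) _
      exact mul_le_mul (mul_le_mul f1 f2 (by positivity) (by positivity)) (hg3 v hv) (hg0 v hv)
        (by positivity)
    rw [nsmul_eq_mul] at e6
    calc ∑ v ∈ S, (x v : ℝ) ^ kp * (y v : ℝ) ^ kp * g v
        ≤ (S.card : ℝ) * ((a : ℝ) ^ kp * (b : ℝ) ^ kp * G) := e6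
      _ ≤ (64 ^ (m / 300) * (41 / 40) ^ m * 40) * ((a : ℝ) ^ kp * (b : ℝ) ^ kp * G) :=
          mul_le_mul_of_nonneg_right e1 (by positivity)
      _ = (a : ℝ) ^ kp * (b : ℝ) ^ kp * ((160 * 64 ^ (m / 300) * (41 / 40) ^ m * G) / 4) := by ring
      _ ≤ (a : ℝ) ^ kp * (b : ℝ) ^ kp * (L / 4) := by
          apply mul_le_mul_of_nonneg_left _ (by positivity)
          linarith

/-- no vertex thick in both coordinates -/
theorem flat_gen {m : ℕ} {ρ L : ℝ} (hP : Par m ρ L) {r : V → V → Prop}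
    (hs : ∀ u v, r u v → r v u)
    (hcard : ∀ T : Finset V, Bd r T (fun _ => 1) m → Bd (fun u v => ¬ r u v) T (fun _ => 1) m →
      (T.card : ℝ) ≤ ρ)
    {x y : V → ℕ} (hx : ∀ v, 1 ≤ x v) (hy : ∀ v, 1 ≤ y v) (S : Finset V) {a b : ℕ}
    (ham : a ≤ m) (hbm : b ≤ m)
    (Ha : Bd r S x a) (Hb : Bd (fun u v => ¬ r u v) S y b)
    (h1 : ∀ v ∈ S, 256 * x v < a ∨ 256 * y v < b) {g : V → ℝ} (hg0 : ∀ v ∈ S, 0 ≤ g v)
    (hgL : ∀ v ∈ S, g v ≤ L)
    (hgT : ∀ v ∈ S, 256 * x v < a → 256 * y v < b → g v ≤ (TT m) ^ 2)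
    (hg3 : ∀ v ∈ S, x v < 300 → y v < 300 → g v ≤ 64 ^ 600) :
    ∑ v ∈ S, (x v : ℝ) ^ kp * (y v : ℝ) ^ kp * g v ≤ (a : ℝ) ^ kp * (b : ℝ) ^ kp * L := by
  classical
  have hL0 := hP.L0
  have hs' : ∀ u v, ¬ r u v → ¬ r v u := fun u v h h' => h (hs _ _ h')
  rw [← Finset.sum_filter_add_sum_filter_not S (fun v => 256 * x v < a),
    ← Finset.sum_filter_add_sum_filter_not (S.filter (fun v => 256 * x v < a))
      (fun v => 256 * y v < b),
    ← Finset.sum_filter_add_sum_filter_not ((S.filter (fun v => 256 * x v < a)).filter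
      (fun v => 256 * y v < b)) (fun v => x v < 300 ∧ y v < 300)]
  have c4 := class_light hP hs hcard hx hy
    (((S.filter (fun v => 256 * x v < a)).filter (fun v => 256 * y v < b)).filter
      (fun v => x v < 300 ∧ y v < 300)) ham hbm
    (Ha.mono (fun v hv => (Finset.mem_filter.1 (Finset.mem_filter.1
      (Finset.mem_filter.1 hv).1).1).1))
    (Hb.mono (fun v hv => (Finset.mem_filter.1 (Finset.mem_filter.1
      (Finset.mem_filter.1 hv).1).1).1))
    (fun v hv => (Finset.mem_filter.1 hv).2)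
    (g := g) (fun v hv => hg0 v (Finset.mem_filter.1 (Finset.mem_filter.1
      (Finset.mem_filter.1 hv).1).1).1)
    (fun v hv => hg3 v (Finset.mem_filter.1 (Finset.mem_filter.1
      (Finset.mem_filter.1 hv).1).1).1 (Finset.mem_filter.1 hv).2.1 (Finset.mem_filter.1 hv).2.2)
  have c3 := class_heavy hP hs hx hy
    (((S.filter (fun v => 256 * x v < a)).filter (fun v => 256 * y v < b)).filter
      (fun v => ¬ (x v < 300 ∧ y v < 300))) ham hbm
    (Ha.mono (fun v hv => (Finset.mem_filter.1 (Finset.mem_filter.1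
      (Finset.mem_filter.1 hv).1).1).1))
    (Hb.mono (fun v hv => (Finset.mem_filter.1 (Finset.mem_filter.1
      (Finset.mem_filter.1 hv).1).1).1))
    (fun v hv => (Finset.mem_filter.1 hv).2)
    (g := g) (fun v hv => hg0 v (Finset.mem_filter.1 (Finset.mem_filter.1
      (Finset.mem_filter.1 hv).1).1).1)
    (fun v hv => hgT v (Finset.mem_filter.1 (Finset.mem_filter.1
      (Finset.mem_filter.1 hv).1).1).1
      (Finset.mem_filter.1 (Finset.mem_filter.1 (Finset.mem_filter.1 hv).1).1).2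
      (Finset.mem_filter.1 (Finset.mem_filter.1 hv).1).2)
  have c1 := class_one hs hx hy
    ((S.filter (fun v => 256 * x v < a)).filter (fun v => ¬ 256 * y v < b)) hL0
    (Ha.mono (fun v hv => (Finset.mem_filter.1 (Finset.mem_filter.1 hv).1).1))
    (Hb.mono (fun v hv => (Finset.mem_filter.1 (Finset.mem_filter.1 hv).1).1))
    (fun v hv => (Finset.mem_filter.1 (Finset.mem_filter.1 hv).1).2)
    (fun v hv => not_lt.1 (Finset.mem_filter.1 hv).2)
    (g := g) (fun v hv => hg0 v (Finset.mem_filter.1 (Finset.mem_filter.1 hv).1).1)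
    (fun v hv => hgL v (Finset.mem_filter.1 (Finset.mem_filter.1 hv).1).1)
  have c2 := class_one hs' hy hx (S.filter (fun v => ¬ 256 * x v < a)) hL0
    (Hb.mono (Finset.filter_subset _ _))
    (Bd.congr (r := r) (fun u v h => not_not.1 h) (Ha.mono (Finset.filter_subset _ _)))
    (fun v hv => by
      rcases h1 v (Finset.mem_filter.1 hv).1 with h | h
      · exact absurd h (Finset.mem_filter.1 hv).2
      · exact h)
    (fun v hv => not_lt.1 (Finset.mem_filter.1 hv).2)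
    (g := g) (fun v hv => hg0 v (Finset.mem_filter.1 hv).1)
    (fun v hv => hgL v (Finset.mem_filter.1 hv).1)
  have c2' : ∑ v ∈ S.filter (fun v => ¬ 256 * x v < a), (x v : ℝ) ^ kp * (y v : ℝ) ^ kp * g v ≤
      (a : ℝ) ^ kp * (b : ℝ) ^ kp * (L / 4) := by
    calc ∑ v ∈ S.filter (fun v => ¬ 256 * x v < a), (x v : ℝ) ^ kp * (y v : ℝ) ^ kp * g v
        = ∑ v ∈ S.filter (fun v => ¬ 256 * x v < a), (y v : ℝ) ^ kp * (x v : ℝ) ^ kp * g v :=
          Finset.sum_congr rfl (fun v _ => by rw [mul_comm ((x v : ℝ) ^ kp)])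
      _ ≤ (b : ℝ) ^ kp * (a : ℝ) ^ kp * (L / 4) := c2
      _ = (a : ℝ) ^ kp * (b : ℝ) ^ kp * (L / 4) := by rw [mul_comm ((b : ℝ) ^ kp)]
  have : (a : ℝ) ^ kp * (b : ℝ) ^ kp * L = (a : ℝ) ^ kp * (b : ℝ) ^ kp * (L / 4) +
      (a : ℝ) ^ kp * (b : ℝ) ^ kp * (L / 4) + (a : ℝ) ^ kp * (b : ℝ) ^ kp * (L / 4) +
      (a : ℝ) ^ kp * (b : ℝ) ^ kp * (L / 4) := by ring
  rw [this]
  exact add_le_add (add_le_add (add_le_add c4 c3) c1) c2'

/-- two unpaired colours -/
theorem ineq_K {m : ℕ} {ρ L : ℝ} (hP : Par m ρ L) {r : V → V → Prop} (hs : ∀ u v, r u v → r v u)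
    (hcard : ∀ T : Finset V, Bd r T (fun _ => 1) m → Bd (fun u v => ¬ r u v) T (fun _ => 1) m →
      (T.card : ℝ) ≤ ρ)
    {x y : V → ℕ} (hx : ∀ v, 1 ≤ x v) (hy : ∀ v, 1 ≤ y v) :
    ∀ (S : Finset V) (a b : ℕ), a ≤ m → b ≤ m → Bd r S x a → Bd (fun u v => ¬ r u v) S y b →
      ∑ v ∈ S, U (x v) * U (y v) * min L (sg m (x v) * sg m (y v)) ≤ U a * U b * L := by
  have hL0 := hP.L0
  have hT := one_le_TT m
  apply es_ind hs (φ := fun i j => U i * U j * min L (sg m i * sg m j))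
    (Φ := fun a b => U a * U b * L)
  · intro a b; exact mul_nonneg (mul_nonneg (U_nonneg a) (U_nonneg b)) hL0
  intro S a b hne ham hbm Ha Hb
  show (∃ v ∈ S, U (x v) * U (y v) * min L (sg m (x v) * sg m (y v)) +
    U (a - x v) * U b * L + U a * U (b - y v) * L ≤ U a * U b * L) ∨
    ∑ v ∈ S, U (x v) * U (y v) * min L (sg m (x v) * sg m (y v)) ≤ U a * U b * L
  by_cases hc : ∃ v ∈ S, a ≤ 256 * x v ∧ b ≤ 256 * y v
  · obtain ⟨v, hv, h1, h2⟩ := hc
    left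
    refine ⟨v, hv, ?_⟩
    have e := es_macro U_PL U_PL (hx v) (Ha.single hv) (hy v) (Hb.single hv) h1 h2
    have e1 : U (x v) * U (y v) * min L (sg m (x v) * sg m (y v)) ≤ U (x v) * U (y v) * L :=
      mul_le_mul_of_nonneg_left (min_le_left _ _) (mul_nonneg (U_nonneg _) (U_nonneg _))
    have e2 := mul_le_mul_of_nonneg_right e hL0
    calc U (x v) * U (y v) * min L (sg m (x v) * sg m (y v)) + U (a - x v) * U b * L +
          U a * U (b - y v) * L
        ≤ U (x v) * U (y v) * L + U (a - x v) * U b * L + U a * U (b - y v) * L := by linarith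
      _ = (U (x v) * U (y v) + U (a - x v) * U b + U a * U (b - y v)) * L := by ring
      _ ≤ U a * U b * L := e2
  · right
    push Not at hc
    apply flat_gen hP hs hcard hx hy S ham hbm Ha Hb
      (g := fun v => min L (sg m (x v) * sg m (y v)))
    · intro v hv
      by_cases h : a ≤ 256 * x v
      · exact Or.inr (hc v hv h)
      · exact Or.inl (by omega)
    · intro v _
      exact le_min hL0 (mul_nonneg (sg_pos m _).le (sg_pos m _).le)
    · intro v _; exact min_le_left _ _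
    · intro v _ h3 h4
      refine (min_le_right _ _).trans ?_
      have e1 := sg_thin (hx v) h3 ham
      have e2 := sg_thin (hy v) h4 hbm
      rw [sq]
      exact mul_le_mul e1 e2 (sg_pos m _).le (by linarith)
    · intro v _ h3 h4
      refine (min_le_right _ _).trans ?_
      have e1 := sg_light (m := m) (hx v) h3
      have e2 := sg_light (m := m) (hy v) h4
      rw [show (600 : ℕ) = 300 + 300 by norm_num, pow_add]
      exact mul_le_mul e1 e2 (sg_pos m _).le (by positivity)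

end Pool.Agent.helper98.GR
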