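import Pool.Agent.helper98.GR.Pot

/-! Uniform bound for odd numbers of colours (for MP_89787e_co): large parameters and the final bound. -/

set_option autoImplicit false
set_option linter.unusedSectionVars false

namespace Pool.Agent.helper98.GR

open Pool.Agent.helper21.GR Filter

theorem pow64_le (m : ℕ) : (64 : ℝ) ^ (m / 300) ≤ Real.exp (14 / 1000 * m) := by
  have h2 : ((m / 300 : ℕ) : ℝ) ≤ (m : ℝ) / 300 := by
    have := Nat.cast_div_le (α := ℝ) (m := m) (n := 300)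
    exact_mod_cast this
  calc (64 : ℝ) ^ (m / 300) = 2 ^ (6 * (m / 300)) := by
        rw [show (64 : ℝ) = 2 ^ 6 by norm_num, ← pow_mul]
    _ ≤ Real.exp (7 / 10 * ((6 * (m / 300) : ℕ) : ℝ)) := pow_two_le_exp _
    _ ≤ Real.exp (14 / 1000 * m) := by
        apply Real.exp_le_exp.2
        push_cast
        linarith

theorem pow41_le (m : ℕ) : (41 / 40 : ℝ) ^ m ≤ Real.exp (1 / 40 * m) := by
  have : (41 / 40 : ℝ) ≤ Real.exp (1 / 40) := by
    have := Real.add_one_le_exp (1 / 40 : ℝ)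
    linarith
  calc (41 / 40 : ℝ) ^ m ≤ Real.exp (1 / 40) ^ m := pow_le_pow_left₀ (by norm_num) this _
    _ = Real.exp (1 / 40 * m) := by rw [← Real.exp_nat_mul, mul_comm]

theorem TT2_le (m : ℕ) : (TT m) ^ 2 ≤ Real.exp (124 / 1000 * m) := by
  have h0 : 0 ≤ TT m := by linarith [one_le_TT m]
  calc (TT m) ^ 2 ≤ Real.exp (62 / 1000 * m) ^ 2 := pow_le_pow_left₀ h0 (TT_le m) 2
    _ = Real.exp (124 / 1000 * m) := by
        rw [← Real.exp_nat_mul]; congr 1; push_cast; ring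

/-- polynomial times a small exponential -/
theorem ev_gen (N : ℕ) {c : ℝ} {g : ℕ → ℝ} (hg0 : ∀ m, 0 ≤ g m)
    (hg : ∀ m, g m ≤ c * Real.exp (163 / 1000 * m)) :
    ∀ᶠ m : ℕ in atTop, ((m : ℝ) ^ N * g m) ^ 2 ≤ (2 : ℝ) ^ m := by
  filter_upwards [poly_exp (2 * N) (c ^ 2) (b := 3 / 10) (by norm_num)] with m hm
  have hm0 : (0 : ℝ) ≤ m := Nat.cast_nonneg m
  have h4 : (m : ℝ) ^ N * g m ≤ (m : ℝ) ^ N * (c * Real.exp (163 / 1000 * m)) :=
    mul_le_mul_of_nonneg_left (hg m) (by positivity)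
  have h5 : 0 ≤ (m : ℝ) ^ N * g m := mul_nonneg (by positivity) (hg0 m)
  calc ((m : ℝ) ^ N * g m) ^ 2
      ≤ ((m : ℝ) ^ N * (c * Real.exp (163 / 1000 * m))) ^ 2 := pow_le_pow_left₀ h5 h4 2
    _ = (c ^ 2 * (m : ℝ) ^ (2 * N)) * Real.exp (326 / 1000 * m) := by
        have e1 : Real.exp (326 / 1000 * m) = Real.exp (163 / 1000 * m) ^ 2 := by
          rw [← Real.exp_nat_mul]; congr 1; push_cast; ring
        rw [e1, mul_comm 2 N, pow_mul]; ring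
    _ ≤ Real.exp (3 / 10 * m) * Real.exp (326 / 1000 * m) :=
        mul_le_mul_of_nonneg_right hm (Real.exp_pos _).le
    _ = Real.exp (3 / 10 * m + 326 / 1000 * m) := by rw [Real.exp_add]
    _ ≤ Real.exp (69 / 100 * m) := by
        apply Real.exp_le_exp.2
        linarith
    _ ≤ 2 ^ m := exp_le_two_pow m

theorem ev_heavy2 : ∀ᶠ m : ℕ in atTop,
    ((m : ℝ) ^ (2 * kp) * (320 * 64 ^ (m / 300) * (41 / 40) ^ m * (TT m) ^ 2)) ^ 2 ≤ (2 : ℝ) ^ m := by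
  apply ev_gen (2 * kp) (c := 320)
    (g := fun m => 320 * 64 ^ (m / 300) * (41 / 40) ^ m * (TT m) ^ 2)
  · intro m; positivity
  · intro m
    have h1 := pow64_le m
    have h2 := pow41_le m
    have h3 := TT2_le m
    calc 320 * 64 ^ (m / 300) * (41 / 40) ^ m * (TT m) ^ 2
        ≤ 320 * Real.exp (14 / 1000 * m) * Real.exp (1 / 40 * m) * Real.exp (124 / 1000 * m) := by
          gcongr
      _ = 320 * Real.exp (163 / 1000 * m) := by
          rw [mul_assoc, mul_assoc, ← Real.exp_add, ← Real.exp_add]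
          congr 2; ring

theorem ev_light2 (G : ℝ) (hG : 0 ≤ G) : ∀ᶠ m : ℕ in atTop,
    ((m : ℝ) ^ (2 * kp) * (160 * 64 ^ (m / 300) * (41 / 40) ^ m * G)) ^ 2 ≤ (2 : ℝ) ^ m := by
  apply ev_gen (2 * kp) (c := 160 * G)
    (g := fun m => 160 * 64 ^ (m / 300) * (41 / 40) ^ m * G)
  · intro m; positivity
  · intro m
    have h1 := pow64_le m
    have h2 := pow41_le m
    have hm0 : (0 : ℝ) ≤ m := Nat.cast_nonneg m
    calc 160 * 64 ^ (m / 300) * (41 / 40) ^ m * G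
        ≤ 160 * Real.exp (14 / 1000 * m) * Real.exp (1 / 40 * m) * G := by
          gcongr
      _ = 160 * G * Real.exp (39 / 1000 * m) := by
          have : Real.exp (39 / 1000 * m) = Real.exp (14 / 1000 * m) * Real.exp (1 / 40 * m) := by
            rw [← Real.exp_add]; congr 1; ring
          rw [this]; ring
      _ ≤ 160 * G * Real.exp (163 / 1000 * m) := by
          apply mul_le_mul_of_nonneg_left _ (by positivity)
          apply Real.exp_le_exp.2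
          linarith

/-- the constant of a pair -/
noncomputable def Cc : ℝ := 4 * (300 ^ (2 * kp) * 64 ^ 600) * 300 ^ (2 * kp)

theorem one_le_Cc : 1 ≤ Cc := by
  unfold Cc
  have h1 : (1 : ℝ) ≤ 300 ^ (2 * kp) := one_le_pow₀ (by norm_num)
  have h2 : (1 : ℝ) ≤ 64 ^ 600 := one_le_pow₀ (by norm_num)
  have h3 : (1 : ℝ) ≤ 300 ^ (2 * kp) * 64 ^ 600 := one_le_mul_of_one_le_of_one_le h1 h2
  have h4 : (1 : ℝ) ≤ 4 * (300 ^ (2 * kp) * 64 ^ 600) :=
    one_le_mul_of_one_le_of_one_le (by norm_num) h3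
  exact one_le_mul_of_one_le_of_one_le h4 h1

theorem ev_par : ∃ m₀ : ℕ, ∀ m, m₀ ≤ m → ∀ ρ : ℝ, 0 ≤ ρ → (2 : ℝ) ^ m ≤ ρ ^ 2 →
    1 ≤ m ∧ Par m ρ (Cc * ρ / (m : ℝ) ^ (2 * kp)) ∧ 1 ≤ Cc * ρ / (m : ℝ) ^ (2 * kp) := by
  obtain ⟨m₀, h⟩ := eventually_atTop.1 ((eventually_ge_atTop 1).and
    (ev_heavy2.and (ev_light2 (64 ^ 600) (by positivity))))
  refine ⟨m₀, fun m hm ρ hρ0 hρ => ?_⟩
  obtain ⟨h1, h2, h3⟩ := h m hm
  have hm1 : (1 : ℝ) ≤ m := by exact_mod_cast h1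
  have hM : (0 : ℝ) < (m : ℝ) ^ (2 * kp) := by positivity
  have hC := one_le_Cc
  have hρC : ρ ≤ Cc * ρ := le_mul_of_one_le_left hρ0 hC
  have e2 : 320 * 64 ^ (m / 300) * (41 / 40) ^ m * (TT m) ^ 2 ≤ Cc * ρ / (m : ℝ) ^ (2 * kp) := by
    rw [le_div_iff₀ hM, mul_comm]
    exact (le_of_sq_le_sq (h2.trans hρ) hρ0).trans hρC
  have e3 : 160 * 64 ^ (m / 300) * (41 / 40) ^ m * 64 ^ 600 ≤ Cc * ρ / (m : ℝ) ^ (2 * kp) := by
    rw [le_div_iff₀ hM, mul_comm]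
    exact (le_of_sq_le_sq (h3.trans hρ) hρ0).trans hρC
  refine ⟨h1, ⟨?_, e2, e3, ?_⟩, ?_⟩
  · positivity
  · rw [mul_div_cancel₀ _ hM.ne']
    unfold Cc
    exact le_of_eq (by ring)
  · refine le_trans ?_ e2
    have a1 : (1 : ℝ) ≤ 64 ^ (m / 300) := one_le_pow₀ (by norm_num)
    have a2 : (1 : ℝ) ≤ (41 / 40) ^ m := one_le_pow₀ (by norm_num)
    have a3 : (1 : ℝ) ≤ (TT m) ^ 2 := one_le_pow₀ (one_le_TT m)
    exact one_le_mul_of_one_le_of_one_le (one_le_mul_of_one_le_of_one_le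
      (one_le_mul_of_one_le_of_one_le (by norm_num) a1) a2) a3

/-- main bound, odd number of colours, uniform -/
theorem main_uni : ∃ C : ℝ, 0 ≤ C ∧ ∀ s t n : ℕ, 3 ≤ t →
    ∀ f : Fin n → Fin n → Fin (2 * s + 1), (∀ a b : Fin n, f a b = f b a) →
    (∀ a b c : Fin n, a ≠ b → b ≠ c → a ≠ c →
      f a b = f b c ∨ f b c = f a c ∨ f a b = f a c) →
    (¬ ∃ S : Finset (Fin n), S.card = t ∧ ∃ i : Fin (2 * s + 1), ∀ x ∈ S, ∀ y ∈ S,
      x ≠ y → f x y = i) →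
    (n : ℝ) ≤ C * (t : ℝ) ^ kp * (C * ((sInf (RSet t) - 1 : ℕ) : ℝ)) ^ s := by
  obtain ⟨m₀, hm₀⟩ := ev_par
  have hC1 := one_le_Cst
  have hCc := one_le_Cc
  obtain ⟨D, hD⟩ : ∃ D : ℝ, D = 64 ^ m₀ := ⟨_, rfl⟩
  have hD1 : (1 : ℝ) ≤ D := by rw [hD]; exact one_le_pow₀ (by norm_num)
  have hCD : 1 ≤ Cst * D := one_le_mul_of_one_le_of_one_le hC1 hD1
  refine ⟨Cc + Cst * D, by linarith, ?_⟩
  intro s t n ht f hf hg hno
  obtain ⟨m, rfl⟩ : ∃ m, t = m + 1 := ⟨t - 1, by omega⟩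
  have hρ1 := one_le_rho ht
  have hρ2 := rho_le ht rfl
  have hlow : (2 : ℝ) ^ m ≤ ((sInf (RSet (m + 1)) - 1 : ℕ) : ℝ) ^ 2 := by
    have := ramsey_lower ht
    rw [Nat.add_sub_cancel] at this
    exact_mod_cast this
  have hodd : Odd (2 * s + 1) := ⟨s, rfl⟩
  have hks : (2 * s + 1 - 1) / 2 = s := by omega
  obtain ⟨ρ, hρ⟩ : ∃ ρ : ℝ, ρ = ((sInf (RSet (m + 1)) - 1 : ℕ) : ℝ) := ⟨_, rfl⟩
  have hm1 : 1 ≤ m := by omega
  have ht1 : (1 : ℝ) ≤ ((m + 1 : ℕ) : ℝ) := by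
    have : (1 : ℝ) ≤ m := by exact_mod_cast hm1
    push_cast; linarith
  have hmt : (m : ℝ) ≤ ((m + 1 : ℕ) : ℝ) := by push_cast; linarith
  have htk : (1 : ℝ) ≤ ((m + 1 : ℕ) : ℝ) ^ kp := one_le_pow₀ ht1
  rcases Nat.lt_or_ge m m₀ with hsmall | hlarge
  · have h1 := main_sq (show 1 ≤ 2 * s + 1 by omega) ht f hf hg hno
    rw [← hρ] at h1 hρ1 hρ2 ⊢
    have h2 : ρ ≤ D := by
      rw [hD]; exact hρ2.trans (pow_le_pow_right₀ (by norm_num) hsmall.le)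
    have hCst0 : 0 ≤ Cst := by linarith
    have h3 : (Cst * ρ) ^ (2 * s + 1) ≤ (Cst * D * (Cst * ρ) ^ s) ^ 2 := by
      have e1 : Cst * ρ ≤ (Cst * D) ^ 2 := by
        have : Cst * ρ ≤ Cst * D := mul_le_mul_of_nonneg_left h2 hCst0
        exact this.trans (le_self_pow₀ hCD two_ne_zero)
      calc (Cst * ρ) ^ (2 * s + 1) = (Cst * ρ) * ((Cst * ρ) ^ s) ^ 2 := by
            rw [← pow_mul, mul_comm s 2, pow_succ, mul_comm]
        _ ≤ (Cst * D) ^ 2 * ((Cst * ρ) ^ s) ^ 2 := mul_le_mul_of_nonneg_right e1 (by positivity)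
        _ = (Cst * D * (Cst * ρ) ^ s) ^ 2 := (mul_pow _ _ 2).symm
    have hρ0 : 0 ≤ ρ := by linarith
    have h4 : (n : ℝ) ≤ Cst * D * (Cst * ρ) ^ s := le_of_sq_le_sq (h1.trans h3) (by positivity)
    refine h4.trans ?_
    have h5 : (Cst * ρ) ^ s ≤ ((Cc + Cst * D) * ρ) ^ s := by
      apply pow_le_pow_left₀ (by positivity)
      apply mul_le_mul_of_nonneg_right _ hρ0
      have : Cst ≤ Cst * D := le_mul_of_one_le_right hCst0 hD1
      linarith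
    have h6 : Cst * D ≤ (Cc + Cst * D) * ((m + 1 : ℕ) : ℝ) ^ kp := by
      calc Cst * D ≤ Cc + Cst * D := by linarith
        _ ≤ (Cc + Cst * D) * ((m + 1 : ℕ) : ℝ) ^ kp := le_mul_of_one_le_right (by linarith) htk
    exact mul_le_mul h6 h5 (by positivity) (by positivity)
  · rw [← hρ] at hρ1 hρ2 hlow
    have hρ0 : 0 ≤ ρ := by linarith
    obtain ⟨-, hP, hL1⟩ := hm₀ m hlarge ρ hρ0 hlow
    have h1 := size_uni (n := n) rfl hm1 hodd hP hL1 hρ f hf hg hno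
    rw [← hρ]
    rw [hks] at h1
    have hmp : (0 : ℝ) < m := by exact_mod_cast hm1
    have h2 : (Cc * ρ / (m : ℝ) ^ (2 * kp)) ^ s * ((m : ℝ) ^ kp) ^ (2 * s + 1) =
        (Cc * ρ) ^ s * (m : ℝ) ^ kp := by
      have e1 : ((m : ℝ) ^ kp) ^ (2 * s + 1) = ((m : ℝ) ^ (2 * kp)) ^ s * (m : ℝ) ^ kp := by
        rw [pow_succ, ← pow_mul, ← pow_mul]; congr 2; ring
      rw [e1, div_pow]
      have : ((m : ℝ) ^ (2 * kp)) ^ s ≠ 0 := by positivity
      field_simp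
    rw [h2] at h1
    refine h1.trans ?_
    have h3 : (Cc * ρ) ^ s ≤ ((Cc + Cst * D) * ρ) ^ s := by
      apply pow_le_pow_left₀ (by positivity)
      apply mul_le_mul_of_nonneg_right _ hρ0
      linarith
    have h4 : (m : ℝ) ^ kp ≤ (Cc + Cst * D) * ((m + 1 : ℕ) : ℝ) ^ kp := by
      have : (m : ℝ) ^ kp ≤ ((m + 1 : ℕ) : ℝ) ^ kp := pow_le_pow_left₀ hmp.le hmt _
      exact this.trans (le_mul_of_one_le_left (by positivity) (by linarith))
    rw [mul_comm]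
    exact mul_le_mul h4 h3 (by positivity) (by positivity)

end Pool.Agent.helper98.GR
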