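import Pool.Agent.helper98.GR.Ineq

/-! Uniform bound for odd numbers of colours (for MP_89787e_co): the potential. -/

set_option autoImplicit false
set_option linter.unusedSectionVars false

namespace Pool.Agent.helper98.GR

open Pool.Agent.helper21.GR

section
variable {K : Type*} [DecidableEq K] [Fintype K]

/-- weight of colour `l` -/
noncomputable def GG (m : ℕ) (B : Finset K) (l : K) (a : ℕ) : ℝ :=
  if l ∈ B then U a else Wg m a

/-- potential for a given set of unpaired colours -/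
noncomputable def FG (m : ℕ) (L : ℝ) (B : Finset K) (A : K → ℕ) : ℝ :=
  L ^ ((B.card - 1) / 2) * ∏ l, GG m B l (A l)

/-- the potential -/
noncomputable def Fu [Nonempty K] (m : ℕ) (L : ℝ) (A : K → ℕ) : ℝ :=
  (odds K).inf' odds_nonempty (fun B => FG m L B A)

theorem Fu_le [Nonempty K] {m : ℕ} {L : ℝ} {A : K → ℕ} {B : Finset K} (hB : Odd B.card) :
    Fu m L A ≤ FG m L B A := by
  have hmem : B ∈ odds K := Finset.mem_filter.2 ⟨Finset.mem_univ B, hB⟩
  exact Finset.inf'_le (fun B => FG m L B A) hmem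

theorem Fu_eq [Nonempty K] (m : ℕ) (L : ℝ) (A : K → ℕ) : ∃ B : Finset K, Odd B.card ∧
    Fu m L A = FG m L B A := by
  obtain ⟨B, hB, h⟩ := Finset.exists_mem_eq_inf' (odds_nonempty (K := K)) (fun B => FG m L B A)
  exact ⟨B, (Finset.mem_filter.1 hB).2, h⟩

theorem GG_nonneg (m : ℕ) (B : Finset K) (l : K) (a : ℕ) : 0 ≤ GG m B l a := by
  unfold GG
  split_ifs
  · exact U_nonneg a
  · exact (Wg_PL m).nonneg a

theorem GG_mono (m : ℕ) (B : Finset K) (l : K)
    {a b : ℕ} (h : a ≤ b) : GG m B l a ≤ GG m B l b := by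
  unfold GG
  split_ifs
  · exact U_mono h
  · exact (Wg_PL m).mono h

theorem GG_one (m : ℕ) (B : Finset K) (l : K) : GG m B l 1 = 1 := by
  unfold GG
  split_ifs
  · exact U_one
  · exact Wg_one m

theorem FG_mono {m : ℕ} {L : ℝ} (hL : 0 ≤ L) (B : Finset K)
    {A A' : K → ℕ} (h : ∀ l, A l ≤ A' l) : FG m L B A ≤ FG m L B A' := by
  unfold FG
  apply mul_le_mul_of_nonneg_left _ (pow_nonneg hL _)
  exact Finset.prod_le_prod (fun l _ => GG_nonneg m B l _) (fun l _ => GG_mono m B l (h l))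

theorem Fu_mono [Nonempty K] {m : ℕ} {L : ℝ} (hL : 0 ≤ L)
    (A A' : K → ℕ) (h : ∀ l, A l ≤ A' l) : Fu m L A ≤ Fu m L A' := by
  obtain ⟨B, hB, e⟩ := Fu_eq m L A'
  rw [e]
  exact (Fu_le hB).trans (FG_mono hL B h)

variable {V : Type*} [DecidableEq V]

theorem twoIneq_uni [Nonempty K] {m : ℕ} {ρ L : ℝ} (hP : Par m ρ L)
    (hcard : ∀ r : V → V → Prop, (∀ u v, r u v → r v u) → ∀ T : Finset V,
      Bd r T (fun _ => 1) m → Bd (fun u v => ¬ r u v) T (fun _ => 1) m → (T.card : ℝ) ≤ ρ) :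
    TwoIneq V m (Fu (K := K) m L) := by
  classical
  intro i j hij A hA r hs S x y hx hy Hx Hy
  have hL0 := hP.L0
  have hs' : ∀ u v, ¬ r u v → ¬ r v u := fun u v h h' => h (hs _ _ h')
  obtain ⟨B, hBo, e⟩ := Fu_eq m L A
  have key : ∀ (C : Finset K), Odd C.card → ∀ v,
      Fu m L (Function.update (Function.update A i (x v)) j (y v)) ≤
      L ^ ((C.card - 1) / 2) * (GG m C i (x v) * GG m C j (y v) *
        ∏ l ∈ (Finset.univ.erase i).erase j, GG m C l (A l)) := by
    intro C hC v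
    refine (Fu_le hC).trans (le_of_eq ?_)
    unfold FG
    rw [prod_update hij]
  have keyA : Fu m L A = L ^ ((B.card - 1) / 2) * (GG m B i (A i) * GG m B j (A j) *
        ∏ l ∈ (Finset.univ.erase i).erase j, GG m B l (A l)) := by
    rw [e]
    unfold FG
    rw [prod_two hij]
  have hrest : 0 ≤ ∏ l ∈ (Finset.univ.erase i).erase j, GG m B l (A l) :=
    Finset.prod_nonneg (fun l _ => GG_nonneg m B l _)
  -- common reduction
  have red : (∑ v ∈ S, GG m B i (x v) * GG m B j (y v) ≤ GG m B i (A i) * GG m B j (A j)) →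
      ∑ v ∈ S, Fu m L (Function.update (Function.update A i (x v)) j (y v)) ≤ Fu m L A := by
    intro h
    have h1 : ∑ v ∈ S, Fu m L (Function.update (Function.update A i (x v)) j (y v)) ≤
        ∑ v ∈ S, L ^ ((B.card - 1) / 2) * (GG m B i (x v) * GG m B j (y v) *
        ∏ l ∈ (Finset.univ.erase i).erase j, GG m B l (A l)) :=
      Finset.sum_le_sum (fun v _ => key B hBo v)
    refine h1.trans ?_
    rw [← Finset.mul_sum, ← Finset.sum_mul, keyA]
    apply mul_le_mul_of_nonneg_left _ (pow_nonneg hL0 _)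
    exact mul_le_mul_of_nonneg_right h hrest
  by_cases hi : i ∈ B <;> by_cases hj : j ∈ B
  · -- both unpaired
    obtain ⟨C, hC⟩ : ∃ C, C = (B.erase i).erase j := ⟨_, rfl⟩
    have hjB : j ∈ B.erase i := Finset.mem_erase.2 ⟨hij.symm, hj⟩
    have hCcard : B.card = C.card + 2 := by
      rw [hC, Finset.card_erase_of_mem hjB, Finset.card_erase_of_mem hi]
      have h1 : 0 < (B.erase i).card := Finset.card_pos.2 ⟨j, hjB⟩
      rw [Finset.card_erase_of_mem hi] at h1
      omega
    have hCo : Odd C.card := by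
      obtain ⟨t, ht⟩ := hBo
      exact ⟨t - 1, by omega⟩
    have hexp : (B.card - 1) / 2 = (C.card - 1) / 2 + 1 := by
      obtain ⟨t, ht⟩ := hCo
      omega
    have hiC : i ∉ C := by rw [hC]; simp
    have hjC : j ∉ C := by rw [hC]; simp
    have hrestC : ∏ l ∈ (Finset.univ.erase i).erase j, GG m C l (A l) =
        ∏ l ∈ (Finset.univ.erase i).erase j, GG m B l (A l) := by
      apply Finset.prod_congr rfl
      intro l hl
      rw [Finset.mem_erase, Finset.mem_erase] at hl
      unfold GG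
      have : l ∈ C ↔ l ∈ B := by
        rw [hC, Finset.mem_erase, Finset.mem_erase]
        exact ⟨fun h => h.2.2, fun h => ⟨hl.1, hl.2.1, h⟩⟩
      simp only [this]
    obtain ⟨R, hR⟩ : ∃ R, R = ∏ l ∈ (Finset.univ.erase i).erase j, GG m B l (A l) := ⟨_, rfl⟩
    obtain ⟨E, hE⟩ : ∃ E, E = L ^ ((C.card - 1) / 2) := ⟨_, rfl⟩
    rw [← hR] at hrest hrestC keyA
    have hE0 : 0 ≤ E := by rw [hE]; exact pow_nonneg hL0 _
    have h1 : ∀ v ∈ S, Fu m L (Function.update (Function.update A i (x v)) j (y v)) ≤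
        (U (x v) * U (y v) * min L (sg m (x v) * sg m (y v))) * (E * R) := by
      intro v _
      have k1 := key B hBo v
      have k2 := key C hCo v
      rw [hrestC] at k2
      rw [← hR, hexp, pow_succ, ← hE] at k1
      rw [← hE] at k2
      unfold GG at k1 k2
      rw [if_pos hi, if_pos hj] at k1
      rw [if_neg hiC, if_neg hjC] at k2
      unfold Wg at k2
      rcases le_total L (sg m (x v) * sg m (y v)) with h | h
      · rw [min_eq_left h]
        refine k1.trans (le_of_eq ?_)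
        ring
      · rw [min_eq_right h]
        refine k2.trans (le_of_eq ?_)
        unfold U
        ring
    refine (Finset.sum_le_sum h1).trans ?_
    rw [← Finset.sum_mul]
    have h2 := ineq_K hP hs (hcard r hs) hx hy S (A i) (A j) (hA i) (hA j) Hx Hy
    refine (mul_le_mul_of_nonneg_right h2 (mul_nonneg hE0 hrest)).trans (le_of_eq ?_)
    rw [keyA, hexp, pow_succ, ← hE]
    unfold GG
    rw [if_pos hi, if_pos hj]
    ring
  · apply red
    unfold GG
    simp only [if_pos hi, if_neg hj]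
    exact ineq_L hs hx hy S (A i) (A j) (hA i) (hA j) Hx Hy
  · apply red
    unfold GG
    simp only [if_neg hi, if_pos hj]
    have := ineq_L hs' hy hx S (A j) (A i) (hA j) (hA i) Hy
      (Bd.congr (r := r) (fun u v h => not_not.1 h) Hx)
    calc ∑ v ∈ S, Wg m (x v) * U (y v) = ∑ v ∈ S, U (y v) * Wg m (x v) :=
          Finset.sum_congr rfl (fun v _ => mul_comm _ _)
      _ ≤ U (A j) * Wg m (A i) := this
      _ = Wg m (A i) * U (A j) := mul_comm _ _
  · apply red
    unfold GG
    simp only [if_neg hi, if_neg hj]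
    exact ineq_PP hs hx hy S (A i) (A j) (hA i) (hA j) Hx Hy

theorem one_le_Fu [Nonempty K] (m : ℕ) {L : ℝ} (hL : 1 ≤ L) :
    1 ≤ Fu (K := K) m L (fun _ => 1) := by
  obtain ⟨B, hB, e⟩ := Fu_eq (K := K) m L (fun _ => 1)
  rw [e]
  unfold FG
  have : ∏ l : K, GG m B l 1 = 1 := Finset.prod_eq_one (fun l _ => GG_one m B l)
  rw [this, mul_one]
  exact one_le_pow₀ hL

end

/-- the size of a Gallai coloured complete graph, odd number of colours -/
theorem size_uni {k t n m : ℕ} {ρ L : ℝ} (ht : t = m + 1) (hm : 1 ≤ m) (hk : Odd k)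
    (hP : Par m ρ L) (hL1 : 1 ≤ L) (hR : ρ = (sInf (RSet t) - 1 : ℕ))
    (f : Fin n → Fin n → Fin k) (hf : ∀ a b : Fin n, f a b = f b a)
    (hg : ∀ a b c : Fin n, a ≠ b → b ≠ c → a ≠ c →
      f a b = f b c ∨ f b c = f a c ∨ f a b = f a c)
    (hno : ¬ ∃ S : Finset (Fin n), S.card = t ∧ ∃ i : Fin k, ∀ x ∈ S, ∀ y ∈ S, x ≠ y → f x y = i) :
    (n : ℝ) ≤ L ^ ((k - 1) / 2) * ((m : ℝ) ^ kp) ^ k := by
  classical
  have hk1 : 1 ≤ k := hk.pos
  have hcard : ∀ r : Fin n → Fin n → Prop, (∀ u v, r u v → r v u) → ∀ T : Finset (Fin n),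
      Bd r T (fun _ => 1) m → Bd (fun u v => ¬ r u v) T (fun _ => 1) m → (T.card : ℝ) ≤ ρ := by
    intro r hs T h1 h2
    have h3 : T.card ∉ RSet t := by
      apply not_mem_RSet hs (by omega)
      · rw [ht, Nat.add_sub_cancel]; exact h1
      · rw [ht, Nat.add_sub_cancel]; exact h2
    have h4 := lt_sInf (by omega) h3
    rw [hR]
    exact_mod_cast (by omega : T.card ≤ sInf (RSet t) - 1)
  have h1 := size_le ht hk1 hm (F := Fu (K := Fin (k + 1)) m L)
    (fun A B hAB => Fu_mono hP.L0 A B hAB)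
    (twoIneq_uni hP hcard) f hf hg hno
  have h2 : (n : ℝ) ≤ n * Fu (K := Fin (k + 1)) m L (fun _ => 1) :=
    le_mul_of_one_le_right (Nat.cast_nonneg n) (one_le_Fu m hL1)
  obtain ⟨B, hBdef⟩ : ∃ B : Finset (Fin (k + 1)), B = Finset.univ.erase (Fin.last k) := ⟨_, rfl⟩
  have hBc : B.card = k := by
    rw [hBdef, Finset.card_erase_of_mem (Finset.mem_univ _), Finset.card_univ, Fintype.card_fin]
    omega
  have h3 : Fu (K := Fin (k + 1)) m L (fun l => if l = Fin.last k then 1 else m) ≤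
      FG m L B (fun l => if l = Fin.last k then 1 else m) := Fu_le (by rw [hBc]; exact hk)
  refine (h2.trans (h1.trans h3)).trans (le_of_eq ?_)
  unfold FG
  rw [hBc, Fin.prod_univ_castSucc]
  congr 1
  have h4 : ∀ i : Fin k, GG m B i.castSucc (if i.castSucc = Fin.last k then 1 else m) =
      (m : ℝ) ^ kp := by
    intro i
    have hne : i.castSucc ≠ Fin.last k := (Fin.castSucc_lt_last _).ne
    rw [if_neg hne]
    unfold GG
    rw [if_pos (by rw [hBdef]; exact Finset.mem_erase.2 ⟨hne, Finset.mem_univ _⟩)]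
    rfl
  have h5 : GG m B (Fin.last k) (if Fin.last k = Fin.last k then 1 else m) = 1 := by
    rw [if_pos rfl, GG_one]
  rw [Finset.prod_congr rfl (fun i _ => h4 i), Finset.prod_const, Finset.card_univ,
    Fintype.card_fin]
  exact (congrArg _ h5).trans (mul_one _)

end Pool.Agent.helper98.GR
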