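import Pool.Agent.helper21.GR.Odd6

/-! Uniform bound for odd numbers of colours (for MP_89787e_co): the weight `sg`, with steps `64` up to
`300` and `64 m / i` afterwards. -/

set_option autoImplicit false
set_option linter.unusedSectionVars false

namespace Pool.Agent.helper98.GR

open Pool.Agent.helper21.GR

/-- step of `ta` -/
noncomputable def stp (m i : ℕ) : ℝ := if i < 300 then 1 else max 1 ((m : ℝ) / i)

theorem one_le_stp (m i : ℕ) : 1 ≤ stp m i := by
  unfold stp
  split_ifs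
  · exact le_rfl
  · exact le_max_left _ _

theorem stp_double {m i i' : ℕ} (h1 : i ≤ i') (h2 : i' ≤ 2 * i) : stp m i ≤ 2 * stp m i' := by
  have h0 := one_le_stp m i'
  by_cases hi : i < 300
  · have : stp m i = 1 := by unfold stp; rw [if_pos hi]
    rw [this]; linarith
  · have hi' : ¬ i' < 300 := by omega
    have e1 : stp m i = max 1 ((m : ℝ) / i) := by unfold stp; rw [if_neg hi]
    have e2 : stp m i' = max 1 ((m : ℝ) / i') := by unfold stp; rw [if_neg hi']
    rw [e1]
    apply max_le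
    · linarith
    · have h3 : (m : ℝ) / i' ≤ stp m i' := by rw [e2]; exact le_max_right _ _
      have hi0 : (0 : ℝ) < i := by exact_mod_cast (by omega : 0 < i)
      have hi0' : (0 : ℝ) < i' := by exact_mod_cast (by omega : 0 < i')
      have h4 : (m : ℝ) / i ≤ 2 * ((m : ℝ) / i') := by
        rw [← mul_div_assoc, div_le_div_iff₀ hi0 hi0']
        have h5 : (i' : ℝ) ≤ 2 * i := by exact_mod_cast h2
        have hm : (0 : ℝ) ≤ m := Nat.cast_nonneg m
        nlinarith
      linarith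

/-- product of the steps -/
noncomputable def ta (m b : ℕ) : ℝ := ∏ i ∈ Finset.range (b - 1), stp m (i + 1)

theorem ta_one (m : ℕ) : ta m 1 = 1 := by simp [ta]

theorem ta_succ (m b : ℕ) (hb : 1 ≤ b) : ta m (b + 1) = ta m b * stp m b := by
  obtain ⟨c, rfl⟩ : ∃ c, b = c + 1 := ⟨b - 1, by omega⟩
  unfold ta
  rw [Nat.add_sub_cancel, Nat.add_sub_cancel, Finset.prod_range_succ]

theorem one_le_ta (m b : ℕ) : 1 ≤ ta m b := by
  unfold ta
  have h : ∀ s : Finset ℕ, 1 ≤ ∏ i ∈ s, stp m (i + 1) := by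
    intro s
    induction s using Finset.induction_on with
    | empty => simp
    | insert i s hi ih =>
      rw [Finset.prod_insert hi]
      exact one_le_mul_of_one_le_of_one_le (one_le_stp _ _) ih
  exact h _

theorem ta_low (m : ℕ) : ∀ b : ℕ, 1 ≤ b → b ≤ 300 → ta m b = 1 := by
  intro b hb
  induction b, hb using Nat.le_induction with
  | base => intro _; exact ta_one m
  | succ b hb ih =>
    intro h
    rw [ta_succ m b hb, ih (by omega)]
    unfold stp
    rw [if_pos (by omega), one_mul]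

theorem ta_sq (m : ℕ) : ∀ j : ℕ, 1 ≤ j → ta m j * ta m j ≤ 2 ^ (2 * j - 2) * ta m (2 * j - 1) := by
  intro j hj
  induction j, hj using Nat.le_induction with
  | base => simp [ta_one]
  | succ j hj ih =>
    have e1 : ta m (2 * (j + 1) - 1) = ta m (2 * j - 1) * stp m (2 * j - 1) * stp m (2 * j) := by
      rw [show 2 * (j + 1) - 1 = 2 * j + 1 by omega, ta_succ m (2 * j) (by omega)]
      have : ta m (2 * j) = ta m (2 * j - 1) * stp m (2 * j - 1) := by
        have := ta_succ m (2 * j - 1) (by omega)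
        rw [show 2 * j - 1 + 1 = 2 * j by omega] at this
        exact this
      rw [this]
    rw [e1, ta_succ m j hj, show 2 * (j + 1) - 2 = (2 * j - 2) + 2 by omega, pow_add]
    have h1 := stp_double (m := m) (show j ≤ 2 * j - 1 by omega) (show 2 * j - 1 ≤ 2 * j by omega)
    have h2 := stp_double (m := m) (show j ≤ 2 * j by omega) (show 2 * j ≤ 2 * j by omega)
    have h3 := one_le_stp m j
    have h4 := one_le_ta m (2 * j - 1)
    have h5 := one_le_ta m j
    have h6 : stp m j * stp m j ≤ (2 * stp m (2 * j - 1)) * (2 * stp m (2 * j)) :=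
      mul_le_mul h1 h2 (by linarith) (by linarith)
    calc ta m j * stp m j * (ta m j * stp m j) = (ta m j * ta m j) * (stp m j * stp m j) := by ring
      _ ≤ (2 ^ (2 * j - 2) * ta m (2 * j - 1)) * ((2 * stp m (2 * j - 1)) * (2 * stp m (2 * j))) :=
          mul_le_mul ih h6 (by nlinarith) (by positivity)
      _ = 2 ^ (2 * j - 2) * 2 ^ 2 * (ta m (2 * j - 1) * stp m (2 * j - 1) * stp m (2 * j)) := by ring

theorem ta_mul_le (m : ℕ) {j : ℕ} (hj : 1 ≤ j) : ∀ d : ℕ, j ≤ d →
    ta m j * ta m d ≤ 2 ^ (j + d - 2) * ta m (j + d - 1) := by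
  intro d hd
  induction d, hd using Nat.le_induction with
  | base =>
    have := ta_sq m j hj
    rw [show 2 * j - 2 = j + j - 2 by omega, show 2 * j - 1 = j + j - 1 by omega] at this
    exact this
  | succ d hd ih =>
    have e1 : ta m (j + (d + 1) - 1) = ta m (j + d - 1) * stp m (j + d - 1) := by
      have := ta_succ m (j + d - 1) (by omega)
      rw [show j + (d + 1) - 1 = (j + d - 1) + 1 by omega]
      exact this
    rw [e1, ta_succ m d (by omega), show j + (d + 1) - 2 = (j + d - 2) + 1 by omega, pow_succ]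
    have h1 := stp_double (m := m) (show d ≤ j + d - 1 by omega) (show j + d - 1 ≤ 2 * d by omega)
    have h3 := one_le_stp m d
    have h4 := one_le_ta m (j + d - 1)
    calc ta m j * (ta m d * stp m d) = (ta m j * ta m d) * stp m d := by ring
      _ ≤ (2 ^ (j + d - 2) * ta m (j + d - 1)) * (2 * stp m (j + d - 1)) :=
          mul_le_mul ih h1 (by linarith) (by positivity)
      _ = 2 ^ (j + d - 2) * 2 * (ta m (j + d - 1) * stp m (j + d - 1)) := by ring

theorem ta_mul (m : ℕ) {j d : ℕ} (hj : 1 ≤ j) (hd : 1 ≤ d) :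
    ta m j * ta m d ≤ 2 ^ (j + d - 2) * ta m (j + d - 1) := by
  rcases le_total j d with h | h
  · exact ta_mul_le m hj d h
  · have := ta_mul_le m hd j h
    rw [mul_comm, show j + d = d + j by omega]
    exact this

/-- the weight -/
noncomputable def sg (m b : ℕ) : ℝ := 64 ^ (b - 1) * ta m b

theorem sg_one (m : ℕ) : sg m 1 = 1 := by unfold sg; rw [ta_one]; simp

theorem sg_pos (m b : ℕ) : 0 < sg m b := by
  unfold sg
  have := one_le_ta m b
  positivity

theorem sg_succ (m b : ℕ) (hb : 1 ≤ b) : sg m (b + 1) = sg m b * (64 * stp m b) := by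
  unfold sg
  obtain ⟨c, rfl⟩ : ∃ c, b = c + 1 := ⟨b - 1, by omega⟩
  rw [ta_succ m (c + 1) hb, Nat.add_sub_cancel, Nat.add_sub_cancel, pow_succ]
  ring

theorem sg_growth (m : ℕ) {p : ℕ} (hp : 1 ≤ p) : ∀ b : ℕ, p ≤ b →
    sg m p * 64 ^ (b - p) ≤ sg m b := by
  intro b hb
  induction b, hb using Nat.le_induction with
  | base => simp
  | succ b hb ih =>
    rw [sg_succ m b (by omega), show b + 1 - p = (b - p) + 1 by omega, pow_succ]
    have h1 := one_le_stp m b
    have h2 := (sg_pos m b).le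
    calc sg m p * (64 ^ (b - p) * 64) = (sg m p * 64 ^ (b - p)) * 64 := by ring
      _ ≤ sg m b * (64 * stp m b) := mul_le_mul ih (by linarith) (by norm_num) h2

theorem sg_mono' (m : ℕ) {a b : ℕ} (ha : 1 ≤ a) (hab : a ≤ b) : sg m a ≤ sg m b := by
  have h := sg_growth m ha b hab
  have h1 : (1 : ℝ) ≤ 64 ^ (b - a) := one_le_pow₀ (by norm_num)
  exact (le_mul_of_one_le_right (sg_pos m a).le h1).trans h

theorem sg_zero (m : ℕ) : sg m 0 = 1 := by unfold sg ta; simp

theorem one_le_sg (m b : ℕ) : 1 ≤ sg m b := by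
  unfold sg
  exact one_le_mul_of_one_le_of_one_le (one_le_pow₀ (by norm_num)) (one_le_ta _ _)

theorem sg_mono (m : ℕ) {a b : ℕ} (hab : a ≤ b) : sg m a ≤ sg m b := by
  rcases Nat.eq_zero_or_pos a with rfl | ha
  · rw [sg_zero]; exact one_le_sg m b
  · exact sg_mono' m ha hab

theorem sg_small (m : ℕ) {a b : ℕ} (ha : 1 ≤ a) (hab : a < b) : sg m a ≤ sg m b / 64 := by
  rw [le_div_iff₀ (by norm_num)]
  have h := sg_growth m ha b hab.le
  have h3 : (64 : ℝ) ≤ 64 ^ (b - a) := by
    calc (64 : ℝ) = 64 ^ 1 := by norm_num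
      _ ≤ 64 ^ (b - a) := pow_le_pow_right₀ (by norm_num) (by omega)
  exact (mul_le_mul_of_nonneg_left h3 (sg_pos m a).le).trans h

theorem sg_mul (m : ℕ) {j d : ℕ} (hj : 1 ≤ j) (hd : 1 ≤ d) :
    sg m j * sg m d ≤ 2 ^ (j + d - 2) * sg m (j + d - 1) := by
  unfold sg
  have h := ta_mul m hj hd
  have e : (64 : ℝ) ^ (j + d - 1 - 1) = 64 ^ (j - 1) * 64 ^ (d - 1) := by
    rw [← pow_add]; congr 1; omega
  rw [e]
  have h0 : (0 : ℝ) ≤ 64 ^ (j - 1) * 64 ^ (d - 1) := by positivity
  calc 64 ^ (j - 1) * ta m j * (64 ^ (d - 1) * ta m d)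
      = (64 ^ (j - 1) * 64 ^ (d - 1)) * (ta m j * ta m d) := by ring
    _ ≤ (64 ^ (j - 1) * 64 ^ (d - 1)) * (2 ^ (j + d - 2) * ta m (j + d - 1)) :=
        mul_le_mul_of_nonneg_left h h0
    _ = _ := by ring

theorem sg_le_W' (m : ℕ) : ∀ x : ℕ, 1 ≤ x → x ≤ m + 1 → sg m x ≤ W' m x := by
  intro x hx
  induction x, hx using Nat.le_induction with
  | base => intro _; rw [sg_one, W'_one]
  | succ x hx ih =>
    intro hxm
    rw [sg_succ m x hx, W'_succ m x hx]
    have hx0 : (0 : ℝ) < x := by exact_mod_cast hx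
    have hxm' : (x : ℝ) ≤ m := by exact_mod_cast (by omega : x ≤ m)
    have h1 : stp m x ≤ (m : ℝ) / x := by
      have h2 : (1 : ℝ) ≤ (m : ℝ) / x := by rwa [one_le_div hx0]
      unfold stp
      split_ifs
      · exact h2
      · exact max_le h2 le_rfl
    have h3 := one_le_stp m x
    apply mul_le_mul (ih (by omega)) _ (by linarith) (W'_pos (by omega) x).le
    rw [mul_div_assoc]
    linarith

theorem sg_thin {m x a : ℕ} (hx : 1 ≤ x) (hxa : 256 * x < a) (ham : a ≤ m) : sg m x ≤ TT m := by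
  refine (sg_le_W' m x hx (by omega)).trans ((W'_le_exp x).trans ?_)
  unfold TT
  apply mul_le_mul_of_nonneg_right _ (Real.exp_pos _).le
  exact pow_le_pow_right₀ (by norm_num) (by omega)

theorem sg_light {m x : ℕ} (hx : 1 ≤ x) (hx3 : x < 300) : sg m x ≤ 64 ^ 300 := by
  unfold sg
  rw [ta_low m x hx (by omega), mul_one]
  exact pow_le_pow_right₀ (by norm_num) (by omega)

/-- binomials against the weight -/
theorem choose_sg' {m A : ℕ} (hA : A ≤ m) : ∀ d : ℕ, 1 ≤ d → d ≤ m →
    ((A + d).choose d : ℝ) * 32 ^ (d - 1) ≤ ((A : ℝ) + 1) ^ (min d 300) * sg m d := by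
  intro d hd
  induction d, hd using Nat.le_induction with
  | base =>
    intro _
    rw [sg_one, Nat.choose_one_right]
    simp
  | succ d hd ih =>
    intro hdm
    have h1 := ih (by omega)
    have h2 : ((A + (d + 1)).choose (d + 1) : ℝ) * (d + 1) =
        ((A + d).choose d : ℝ) * (A + d + 1) := by
      have h3 := Nat.add_one_mul_choose_eq (A + d) d
      have h4 : (((A + d + 1) * (A + d).choose d : ℕ) : ℝ) =
          (((A + d + 1).choose (d + 1) * (d + 1) : ℕ) : ℝ) := by exact_mod_cast h3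
      push_cast at h4
      rw [show A + (d + 1) = A + d + 1 from rfl]
      linarith
    have hd0 : (0 : ℝ) < (d : ℝ) + 1 := by positivity
    have hd1 : (1 : ℝ) ≤ d := by exact_mod_cast hd
    have hA0 : (0 : ℝ) ≤ A := Nat.cast_nonneg A
    have h6 : ((A + (d + 1)).choose (d + 1) : ℝ) =
        ((A + d).choose d : ℝ) * ((A + d + 1) / (d + 1)) := by
      rw [← mul_div_assoc, ← h2]; field_simp
    have hs := one_le_stp m d
    have hsg := (sg_pos m d).le
    have hc : (0 : ℝ) ≤ ((A + d).choose d : ℝ) := Nat.cast_nonneg _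
    rw [h6, sg_succ m d hd, show d + 1 - 1 = (d - 1) + 1 by omega, pow_succ]
    by_cases hd3 : d < 300
    · rw [show min (d + 1) 300 = min d 300 + 1 by omega, pow_succ]
      have h7 : ((A : ℝ) + d + 1) / (d + 1) * 32 ≤ ((A : ℝ) + 1) * (64 * stp m d) := by
        have h8 : ((A : ℝ) + d + 1) / (d + 1) ≤ (A : ℝ) + 1 := by
          rw [div_le_iff₀ hd0]; nlinarith
        have h9 : (32 : ℝ) ≤ 64 * stp m d := by linarith
        exact mul_le_mul h8 h9 (by norm_num) (by positivity)
      calc ((A + d).choose d : ℝ) * ((A + d + 1) / (d + 1)) * (32 ^ (d - 1) * 32)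
          = (((A + d).choose d : ℝ) * 32 ^ (d - 1)) * (((A : ℝ) + d + 1) / (d + 1) * 32) := by ring
        _ ≤ (((A : ℝ) + 1) ^ (min d 300) * sg m d) * (((A : ℝ) + 1) * (64 * stp m d)) :=
            mul_le_mul h1 h7 (by positivity) (by positivity)
        _ = ((A : ℝ) + 1) ^ (min d 300) * (A + 1) * (sg m d * (64 * stp m d)) := by ring
    · rw [show min (d + 1) 300 = min d 300 by omega]
      have h7 : ((A : ℝ) + d + 1) / (d + 1) * 32 ≤ 64 * stp m d := by
        have h8 : (m : ℝ) / d ≤ stp m d := by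
          unfold stp; rw [if_neg hd3]; exact le_max_right _ _
        have h9 : ((A : ℝ) + d + 1) ≤ 2 * m := by
          have : A + d + 1 ≤ 2 * m := by omega
          exact_mod_cast this
        have hm0 : (0 : ℝ) ≤ m := Nat.cast_nonneg m
        have h10 : ((A : ℝ) + d + 1) / (d + 1) ≤ 2 * ((m : ℝ) / d) := by
          rw [← mul_div_assoc, div_le_div_iff₀ hd0 (by linarith)]
          nlinarith
        linarith
      calc ((A + d).choose d : ℝ) * ((A + d + 1) / (d + 1)) * (32 ^ (d - 1) * 32)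
          = (((A + d).choose d : ℝ) * 32 ^ (d - 1)) * (((A : ℝ) + d + 1) / (d + 1) * 32) := by ring
        _ ≤ (((A : ℝ) + 1) ^ (min d 300) * sg m d) * (64 * stp m d) :=
            mul_le_mul h1 h7 (by positivity) (by positivity)
        _ = ((A : ℝ) + 1) ^ (min d 300) * (sg m d * (64 * stp m d)) := by ring

theorem choose_sg {m A : ℕ} (hA : A ≤ m) {d : ℕ} (hd : 1 ≤ d) (hdm : d ≤ m) :
    ((A + d).choose d : ℝ) * 32 ^ (d - 1) ≤ ((A : ℝ) + 1) ^ 300 * sg m d := by
  refine (choose_sg' hA d hd hdm).trans ?_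
  apply mul_le_mul_of_nonneg_right _ (sg_pos m d).le
  have hA0 : (0 : ℝ) ≤ A := Nat.cast_nonneg A
  exact pow_le_pow_right₀ (by linarith) (min_le_right _ _)

/-- one term of the sum estimate -/
theorem term_sg {m A b j d : ℕ} (hA : A ≤ m) (hbm : b ≤ m) (hj : 1 ≤ j) (hd : 1 ≤ d)
    (hjd : j * d ≤ b) :
    sg m j * ((A + d).choose d : ℝ) * 8 ^ (b - j) ≤ ((A : ℝ) + 1) ^ 300 * sg m b := by
  have hm : 1 ≤ m := by nlinarith
  have hjb : j ≤ b := by nlinarith
  have hdb : d ≤ b := by nlinarith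
  have hA0 : (1 : ℝ) ≤ (A : ℝ) + 1 := by
    have : (0 : ℝ) ≤ A := Nat.cast_nonneg A
    linarith
  have hA3 : (A : ℝ) + 1 ≤ ((A : ℝ) + 1) ^ 300 := le_self_pow₀ hA0 (by norm_num)
  have hWj := sg_pos m j
  have hWb := sg_pos m b
  rcases Nat.eq_or_lt_of_le hd with h1 | h1
  · rw [← h1]
    have h2 := sg_growth m hj b hjb
    have h3 : (8 : ℝ) ^ (b - j) ≤ 64 ^ (b - j) := pow_le_pow_left₀ (by norm_num) (by norm_num) _
    rw [Nat.choose_one_right]
    push_cast
    calc sg m j * ((A : ℝ) + 1) * 8 ^ (b - j) = (A + 1) * (sg m j * 8 ^ (b - j)) := by ring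
      _ ≤ (A + 1) * (sg m j * 64 ^ (b - j)) :=
          mul_le_mul_of_nonneg_left (mul_le_mul_of_nonneg_left h3 hWj.le) (by linarith)
      _ ≤ (A + 1) * sg m b := mul_le_mul_of_nonneg_left h2 (by linarith)
      _ ≤ _ := mul_le_mul_of_nonneg_right hA3 hWb.le
  · -- `d ≥ 2`
    have c1 := choose_sg hA hd (by omega)
    have c3 := sg_mul m hj hd
    have hsum : j + d - 1 ≤ b := by
      have : j + d ≤ j * d + 1 := by
        obtain ⟨u, rfl⟩ : ∃ u, j = u + 1 := ⟨j - 1, by omega⟩
        obtain ⟨e, rfl⟩ : ∃ e, d = e + 1 := ⟨d - 1, by omega⟩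
        nlinarith
      omega
    have c4 := sg_growth m (by omega : 1 ≤ j + d - 1) b hsum
    have hbj1 : j ≤ b - j := by
      have : j * 2 ≤ j * d := Nat.mul_le_mul_left j h1
      omega
    have hbj2 : d - 1 ≤ b - j := by omega
    -- exponents
    have hexp : (2 : ℝ) ^ (j + d - 2) * 8 ^ (b - j) ≤ 32 ^ (d - 1) * 64 ^ (b - (j + d - 1)) := by
      rw [show (8 : ℝ) = 2 ^ 3 by norm_num, show (32 : ℝ) = 2 ^ 5 by norm_num,
        show (64 : ℝ) = 2 ^ 6 by norm_num, ← pow_mul, ← pow_mul, ← pow_mul, ← pow_add, ← pow_add]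
      apply pow_le_pow_right₀ (by norm_num)
      omega
    have h32 : (0 : ℝ) < 32 ^ (d - 1) := by positivity
    have h64 : (0 : ℝ) < 64 ^ (b - (j + d - 1)) := by positivity
    have hX : (0 : ℝ) ≤ ((A : ℝ) + 1) ^ 300 := by positivity
    have e1 : (sg m j * ((A + d).choose d : ℝ) * 8 ^ (b - j)) *
        (32 ^ (d - 1) * 64 ^ (b - (j + d - 1))) ≤ (((A : ℝ) + 1) ^ 300 * sg m b) *
        (32 ^ (d - 1) * 64 ^ (b - (j + d - 1))) := by
      calc (sg m j * ((A + d).choose d : ℝ) * 8 ^ (b - j)) * (32 ^ (d - 1) * 64 ^ (b - (j + d - 1)))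
          = sg m j * (((A + d).choose d : ℝ) * 32 ^ (d - 1)) * 8 ^ (b - j) *
            64 ^ (b - (j + d - 1)) := by ring
        _ ≤ sg m j * (((A : ℝ) + 1) ^ 300 * sg m d) * 8 ^ (b - j) * 64 ^ (b - (j + d - 1)) := by
            apply mul_le_mul_of_nonneg_right _ h64.le
            apply mul_le_mul_of_nonneg_right _ (by positivity)
            exact mul_le_mul_of_nonneg_left c1 hWj.le
        _ = ((A : ℝ) + 1) ^ 300 * ((sg m j * sg m d) * 8 ^ (b - j) * 64 ^ (b - (j + d - 1))) := by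
            ring
        _ ≤ ((A : ℝ) + 1) ^ 300 * ((2 ^ (j + d - 2) * sg m (j + d - 1)) * 8 ^ (b - j) *
            64 ^ (b - (j + d - 1))) := by
            apply mul_le_mul_of_nonneg_left _ hX
            apply mul_le_mul_of_nonneg_right _ h64.le
            exact mul_le_mul_of_nonneg_right c3 (by positivity)
        _ = ((A : ℝ) + 1) ^ 300 * ((sg m (j + d - 1) * 64 ^ (b - (j + d - 1))) *
            (2 ^ (j + d - 2) * 8 ^ (b - j))) := by ring
        _ ≤ ((A : ℝ) + 1) ^ 300 * (sg m b * (32 ^ (d - 1) * 64 ^ (b - (j + d - 1)))) := by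
            apply mul_le_mul_of_nonneg_left _ hX
            exact mul_le_mul c4 hexp (by positivity) hWb.le
        _ = _ := by ring
    exact le_of_mul_le_mul_right e1 (by positivity)

variable {V : Type*} [DecidableEq V]

/-- the sum estimate -/
theorem sum_sg_le {m : ℕ} {r : V → V → Prop} (hs : ∀ u v, r u v → r v u)
    {y : V → ℕ} (hy : ∀ v, 1 ≤ y v) (S : Finset V) {A b : ℕ} (hA : A ≤ m)
    (hbm : b ≤ m) (Ha : Bd r S (fun _ => 1) A) (Hb : Bd (fun u v => ¬ r u v) S y b) :
    ∑ v ∈ S, sg m (y v) ≤ 2 * ((A : ℝ) + 1) ^ 300 * sg m b := by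
  classical
  have hWb := sg_pos m b
  rcases S.eq_empty_or_nonempty with rfl | ⟨v0, hv0⟩
  · simp only [Finset.sum_empty]
    positivity
  have hb1 : 1 ≤ b := (hy v0).trans (Hb.single hv0)
  have h1 : ∑ v ∈ S, sg m (y v) ≤ ∑ v ∈ S, ∑ i ∈ Finset.range b,
      if i + 1 ≤ y v then sg m (i + 1) else 0 := by
    apply Finset.sum_le_sum
    intro v hv
    have h2 := Hb.single hv
    have h3 : (if (y v - 1) + 1 ≤ y v then sg m ((y v - 1) + 1) else 0) ≤
        ∑ i ∈ Finset.range b, if i + 1 ≤ y v then sg m (i + 1) else 0 := by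
      apply Finset.single_le_sum (f := fun i => if i + 1 ≤ y v then sg m (i + 1) else 0)
      · intro i _
        show 0 ≤ (if i + 1 ≤ y v then sg m (i + 1) else 0)
        split_ifs
        · exact (sg_pos m _).le
        · exact le_rfl
      · have := hy v
        rw [Finset.mem_range]; omega
    have := hy v
    rw [Nat.sub_add_cancel this, if_pos le_rfl] at h3
    exact h3
  refine h1.trans ?_
  rw [Finset.sum_comm]
  have h4 : ∀ i ∈ Finset.range b, (∑ v ∈ S, if i + 1 ≤ y v then sg m (i + 1) else 0) ≤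
      ((A : ℝ) + 1) ^ 300 * sg m b * ((1 / 8 : ℝ) ^ (b - 1 - i)) := by
    intro i hi
    rw [Finset.mem_range] at hi
    rw [← Finset.sum_filter, Finset.sum_const, nsmul_eq_mul]
    obtain ⟨T, hT⟩ : ∃ T, T = S.filter (fun v => i + 1 ≤ y v) := ⟨_, rfl⟩
    rw [← hT]
    have e1 : Bd r T (fun _ => 1) A := Ha.mono (by rw [hT]; exact Finset.filter_subset _ _)
    have e2 : Bd (fun u v => ¬ r u v) T (fun _ => 1) (b / (i + 1)) :=
      Hb.large (by omega) (by rw [hT]; exact Finset.filter_subset _ _)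
        (fun v hv => by rw [hT] at hv; exact (Finset.mem_filter.1 hv).2)
    have e3 := card_le_choose hs T A (b / (i + 1)) e1 e2
    have hd : 1 ≤ b / (i + 1) := by
      rw [Nat.le_div_iff_mul_le (by omega)]; omega
    have e4 : (T.card : ℝ) ≤ ((A + b / (i + 1)).choose (b / (i + 1)) : ℝ) := by
      have : (A + b / (i + 1)).choose A = (A + b / (i + 1)).choose (b / (i + 1)) := by
        rw [← Nat.choose_symm_of_eq_add rfl]
      rw [this] at e3
      exact_mod_cast (by omega : T.card ≤ (A + b / (i + 1)).choose (b / (i + 1)))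
    have e5 := term_sg hA hbm (show 1 ≤ i + 1 by omega) hd (Nat.mul_div_le b (i + 1))
    have hW := sg_pos m (i + 1)
    have h8 : (0 : ℝ) < 8 ^ (b - (i + 1)) := by positivity
    have e6 : (T.card : ℝ) * sg m (i + 1) * 8 ^ (b - (i + 1)) ≤ ((A : ℝ) + 1) ^ 300 * sg m b := by
      refine le_trans ?_ e5
      apply mul_le_mul_of_nonneg_right _ h8.le
      rw [mul_comm]
      exact mul_le_mul_of_nonneg_left e4 hW.le
    rw [show b - 1 - i = b - (i + 1) by omega, one_div, inv_pow, ← div_eq_mul_inv, le_div_iff₀ h8]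
    exact e6
  refine (Finset.sum_le_sum h4).trans ?_
  rw [← Finset.mul_sum, Finset.sum_range_reflect (fun i => (1 / 8 : ℝ) ^ i) b]
  have h5 : ∑ i ∈ Finset.range b, (1 / 8 : ℝ) ^ i ≤ 2 := by
    rw [geom_sum_eq (by norm_num)]
    have : (0 : ℝ) ≤ (1 / 8) ^ b := by positivity
    rw [div_le_iff_of_neg (by norm_num)]
    linarith
  have h6 : 0 ≤ ((A : ℝ) + 1) ^ 300 * sg m b := by positivity
  calc ((A : ℝ) + 1) ^ 300 * sg m b * ∑ i ∈ Finset.range b, (1 / 8 : ℝ) ^ i
      ≤ ((A : ℝ) + 1) ^ 300 * sg m b * 2 := mul_le_mul_of_nonneg_left h5 h6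
    _ = 2 * ((A : ℝ) + 1) ^ 300 * sg m b := by ring

/-! ### the weight times the polynomial -/

/-- polynomial times `sg` -/
noncomputable def Wg (m x : ℕ) : ℝ := (x : ℝ) ^ kp * sg m x

theorem Wg_PL (m : ℕ) : PL (Wg m) where
  zero := by unfold Wg; rw [Nat.cast_zero, zero_pow kp_ne, zero_mul]
  nonneg := fun x => mul_nonneg (by positivity) (sg_pos m x).le
  le := by
    intro x a hxa ha
    unfold Wg
    have h1 : (a : ℝ) ^ kp * sg m a * ((x : ℝ) / a) ^ kp = (x : ℝ) ^ kp * sg m a := by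
      rw [mul_right_comm, ← mul_pow, mul_div_cancel₀ _ (by exact_mod_cast (by omega : a ≠ 0))]
    rw [h1]
    exact mul_le_mul_of_nonneg_left (sg_mono m hxa) (by positivity)

theorem Wg_Sm (m a : ℕ) : Sm (Wg m) a := by
  intro i hi hia
  have h1 := sg_small m hi hia
  have h2 := U_mono hia.le
  have h3 := U_nonneg i
  have h4 := U_nonneg a
  unfold U at h2 h3 h4
  unfold Wg
  have h5 := (sg_pos m i).le
  calc (i : ℝ) ^ kp * sg m i ≤ (a : ℝ) ^ kp * (sg m a / 64) := mul_le_mul h2 h1 h5 h4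
    _ = (a : ℝ) ^ kp * sg m a / 64 := by ring

theorem Wg_one (m : ℕ) : Wg m 1 = 1 := by unfold Wg; rw [sg_one]; simp

end Pool.Agent.helper98.GR
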